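import Mathlib

/-!
# An upper bound for the additivity number of `Split(Ω, Λ)`

We prove `add(Split(Ω,Λ)) ≤ cf(𝔲) ≤ 𝔲`, where `𝔲` is the ultrafilter number.  Since `𝔲 < 𝔠` is
consistent, this improves the upper bound `𝔠`.

The proof has three steps: a base of a nonprincipal ultrafilter, seen as a set of reals, does not
satisfy `Split(Ω,Λ)`; every set of reals of cardinality less than `𝔲` satisfies `Split(Ω,Λ)`; and a
set of cardinality `𝔲` is a union of `cf(𝔲)` many sets of cardinality less than `𝔲`.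
-/

namespace Pool.Agent.Results.MP_312f56_gt.AddLeCofU

open Set Filter Topology Cardinal

/-- Open large covers: families of open sets, the whole space not among them, such that every
point belongs to infinitely many members. -/
def IsLargeCover (X : Type*) [TopologicalSpace X] (U : Set (Set X)) : Prop :=
  (∀ u ∈ U, IsOpen u) ∧ Set.univ ∉ U ∧ ⋃₀ U = Set.univ ∧ ∀ x : X, {u | u ∈ U ∧ x ∈ u}.Infinite

/-- Open `ω`-covers: families of open sets, the whole space not among them, such that every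
finite set is contained in a member. -/
def IsOmegaCover (X : Type*) [TopologicalSpace X] (U : Set (Set X)) : Prop :=
  (∀ u ∈ U, IsOpen u) ∧ Set.univ ∉ U ∧ ⋃₀ U = Set.univ ∧
    ∀ F : Set X, F.Finite → ∃ u ∈ U, F ⊆ u

/-- The property `Split(Ω, Λ)`. -/
def SplitOmegaLambda (X : Type*) [TopologicalSpace X] : Prop :=
  ∀ U : Set (Set X), IsOmegaCover X U → ∃ V W : Set (Set X), V ∪ W = U ∧ Disjoint V W ∧
    (∃ V' ⊆ V, IsLargeCover X V') ∧ (∃ W' ⊆ W, IsLargeCover X W')

/-- The family of all sets of reals satisfying `Split(Ω, Λ)`. -/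
def Good : Set (Set ℝ) := {X | SplitOmegaLambda X}

/-- The additivity number of the family of sets of reals satisfying `Split(Ω, Λ)`. -/
noncomputable def addNumber : Cardinal.{0} :=
  sInf {c | ∃ F : Set (Set ℝ), F ⊆ Good ∧ ⋃₀ F ∉ Good ∧ #F = c}

/-- `B` is a base of a nonprincipal ultrafilter on `ℕ`. -/
def IsUltrafilterBase (B : Set (Set ℕ)) : Prop :=
  ∃ p : Ultrafilter ℕ, (∀ n, ({n} : Set ℕ) ∉ p) ∧ (∀ b ∈ B, b ∈ p) ∧ ∀ V ∈ p, ∃ b ∈ B, b ⊆ V

/-- The ultrafilter number `𝔲`: the least cardinality of a base of a nonprincipal ultrafilter. -/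
noncomputable def ultrafilterNumber : Cardinal.{0} :=
  sInf {c | ∃ B : Set (Set ℕ), IsUltrafilterBase B ∧ #B = c}

/-! ### Small sets -/

/-- In a second countable space every open `ω`-cover contains a countable `ω`-cover. -/
lemma exists_countable_subcover {X : Type*} [TopologicalSpace X] [SecondCountableTopology X]
    {U : Set (Set X)} (hU : IsOmegaCover X U) :
    ∃ U' ⊆ U, U'.Countable ∧ ∀ F : Set X, F.Finite → ∃ u ∈ U', F ⊆ u := by
  have h1 : ∀ k : ℕ, ∃ T : Set (Set X), T ⊆ U ∧ T.Countable ∧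
      ∀ f : Fin k → X, ∃ u ∈ T, ∀ i, f i ∈ u := by
    intro k
    set S : Set (Set (Fin k → X)) := (fun u : Set X => {f : Fin k → X | ∀ i, f i ∈ u}) '' U with hS
    have hopen : ∀ s ∈ S, IsOpen s := by
      rintro _ ⟨u, hu, rfl⟩
      have h2 : {f : Fin k → X | ∀ i, f i ∈ u} = Set.pi Set.univ fun _ => u := by
        ext f
        simp
      show IsOpen {f : Fin k → X | ∀ i, f i ∈ u}
      rw [h2]
      exact isOpen_set_pi Set.finite_univ fun _ _ => hU.1 u hu
    obtain ⟨T, hTc, hTS, hTU⟩ := TopologicalSpace.isOpen_sUnion_countable S hopen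
    have h3 : ∀ t : Set (Fin k → X), t ∈ T → ∃ u ∈ U, {f : Fin k → X | ∀ i, f i ∈ u} = t :=
      fun t ht => hTS ht
    choose! g hgU hg using h3
    refine ⟨g '' T, ?_, hTc.image g, ?_⟩
    · rintro _ ⟨t, ht, rfl⟩
      exact hgU t ht
    · intro f
      obtain ⟨u, hu, hfu⟩ := hU.2.2.2 (Set.range f) (Set.finite_range f)
      have h4 : f ∈ ⋃₀ S := ⟨_, ⟨u, hu, rfl⟩, fun i => hfu ⟨i, rfl⟩⟩
      rw [← hTU] at h4
      obtain ⟨t, ht, hft⟩ := h4
      refine ⟨g t, ⟨t, ht, rfl⟩, ?_⟩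
      rw [← hg t ht] at hft
      exact hft
  choose T hTU hTc hT using h1
  refine ⟨⋃ k, T k, Set.iUnion_subset hTU, Set.countable_iUnion hTc, ?_⟩
  intro F hF
  have : Finite F := hF
  obtain ⟨k, ⟨e⟩⟩ := Finite.exists_equiv_fin F
  obtain ⟨u, hu, hfu⟩ := hT k fun i => (e.symm i : X)
  refine ⟨u, Set.mem_iUnion.2 ⟨k, hu⟩, ?_⟩
  intro x hx
  have := hfu (e ⟨x, hx⟩)
  simpa using this

/-- A family which captures all finite sets and does not contain the whole space captures all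
finite sets infinitely often. -/
lemma infinite_capture {X : Type*} {U : Set (Set X)} (h1 : Set.univ ∉ U)
    (h2 : ∀ F : Set X, F.Finite → ∃ u ∈ U, F ⊆ u) {F : Set X} (hF : F.Finite) :
    {u | u ∈ U ∧ F ⊆ u}.Infinite := by
  intro hfin
  have h3 : ∀ u : Set X, ∃ y : X, u ∈ U → y ∉ u := by
    intro u
    by_cases hu : u ∈ U
    · have hne : u ≠ Set.univ := fun h => h1 (h ▸ hu)
      obtain ⟨y, hy⟩ := (Set.ne_univ_iff_exists_notMem u).1 hne
      exact ⟨y, fun _ => hy⟩
    · have hX : Nonempty X := by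
        by_contra hcon
        rw [not_nonempty_iff] at hcon
        obtain ⟨v, hv, _⟩ := h2 ∅ Set.finite_empty
        have : v = Set.univ := by
          ext x
          exact hcon.elim x
        exact h1 (this ▸ hv)
      exact ⟨hX.some, fun h => absurd h hu⟩
  choose y hy using h3
  obtain ⟨u, hu, hFu⟩ := h2 (F ∪ y '' {u | u ∈ U ∧ F ⊆ u}) (hF.union (hfin.image y))
  have h4 : u ∈ {u | u ∈ U ∧ F ⊆ u} := ⟨hu, fun x hx => hFu (Or.inl hx)⟩
  exact hy u hu (hFu (Or.inr ⟨u, h4, rfl⟩))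

/-- A set of reals without `Split(Ω,Λ)` is infinite and of cardinality at least `𝔲`. -/
lemma le_of_not_good {X : Set ℝ} (hX : X ∉ Good) : X.Infinite ∧ ultrafilterNumber ≤ #X := by
  have hX' : ¬ SplitOmegaLambda X := hX
  unfold SplitOmegaLambda at hX'
  push Not at hX'
  obtain ⟨U, hU, hns⟩ := hX'
  obtain ⟨U', hU'U, hU'c, hU'⟩ := exists_countable_subcover hU
  have huniv : Set.univ ∉ U' := fun h => hU.2.1 (hU'U h)
  have hU'inf : U'.Infinite :=
    (infinite_capture huniv hU' Set.finite_empty).mono fun u hu => hu.1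
  have hXinf : X.Infinite := by
    intro hfin
    have : Finite X := hfin
    obtain ⟨u, hu, hsub⟩ := hU' Set.univ Set.finite_univ
    exact huniv ((Set.univ_subset_iff.1 hsub) ▸ hu)
  refine ⟨hXinf, ?_⟩
  have : Countable U' := hU'c.to_subtype
  have : Infinite U' := hU'inf.to_subtype
  obtain ⟨hden⟩ := nonempty_denumerable U'
  set e : ℕ ≃ U' := (Denumerable.eqv U').symm with he
  set u : ℕ → Set X := fun n => (e n : Set X) with hu
  have huinj : Function.Injective u := Subtype.val_injective.comp e.injective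
  have huU' : ∀ n, u n ∈ U' := fun n => (e n).2
  set A : X → Set ℕ := fun x => {n | x ∈ u n} with hA
  have hcap : ∀ F : Set X, F.Finite → {n | F ⊆ u n}.Infinite := by
    intro F hF hfin
    refine infinite_capture huniv hU' hF ((hfin.image u).subset ?_)
    rintro v ⟨hv, hFv⟩
    refine ⟨e.symm ⟨v, hv⟩, ?_, ?_⟩
    · show F ⊆ u _
      simpa [hu] using hFv
    · simp [hu]
  -- the family is not split
  have hreap : ∀ V : Set ℕ, ∃ x, (A x \ V).Finite ∨ (A x ∩ V).Finite := by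
    intro V
    by_contra hcon
    push Not at hcon
    have hlarge : ∀ V : Set ℕ, (∀ x, (A x ∩ V).Infinite) → IsLargeCover X (u '' V) := by
      intro V hV
      refine ⟨?_, ?_, ?_, ?_⟩
      · rintro _ ⟨n, _, rfl⟩
        exact hU.1 _ (hU'U (huU' n))
      · rintro ⟨n, _, hn⟩
        exact huniv (hn ▸ huU' n)
      · rw [Set.eq_univ_iff_forall]
        intro x
        obtain ⟨n, hn, hnV⟩ := (hV x).nonempty
        exact ⟨u n, ⟨n, hnV, rfl⟩, hn⟩
      · intro x
        refine ((hV x).image huinj.injOn).mono ?_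
        rintro _ ⟨n, ⟨hn, hnV⟩, rfl⟩
        exact ⟨⟨n, hnV, rfl⟩, hn⟩
    refine hns (u '' V) (U \ u '' V) ?_ disjoint_sdiff_right ⟨u '' V, subset_rfl, ?_⟩ (u '' Vᶜ)
      ?_ ?_
    · refine Set.union_sdiff_cancel ?_
      rintro _ ⟨n, _, rfl⟩
      exact hU'U (huU' n)
    · exact hlarge V fun x => (hcon x).2
    · rintro _ ⟨n, hn, rfl⟩
      refine ⟨hU'U (huU' n), ?_⟩
      rintro ⟨m, hm, hmn⟩
      exact hn (huinj hmn ▸ hm)
    · refine hlarge Vᶜ fun x => ?_
      have := (hcon x).1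
      rwa [Set.sdiff_eq] at this
  -- the generated ultrafilter
  have hdir : ∀ x y : X, ∃ z, (A z \ (A x ∩ A y)).Finite := by
    intro x y
    obtain ⟨z, hz | hz⟩ := hreap (A x ∩ A y)
    · exact ⟨z, hz⟩
    · exfalso
      have h1 := hcap {z, x, y} (by simp)
      refine h1 (hz.subset ?_)
      intro n hn
      exact ⟨hn (by simp), hn (by simp), hn (by simp)⟩
  have hXne : Nonempty X := hXinf.nonempty.to_subtype
  set f : Filter ℕ :=
    { sets := {V | ∃ x, (A x \ V).Finite}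
      univ_sets := ⟨hXne.some, by simp⟩
      sets_of_superset := by
        rintro V W ⟨x, hx⟩ hVW
        exact ⟨x, hx.subset (Set.sdiff_subset_sdiff_right hVW)⟩
      inter_sets := by
        rintro V W ⟨x, hx⟩ ⟨y, hy⟩
        obtain ⟨z, hz⟩ := hdir x y
        refine ⟨z, ((hz.union hx).union hy).subset ?_⟩
        rintro n ⟨hn, hnVW⟩
        by_cases h1 : n ∈ A x ∩ A y
        · by_cases h2 : n ∈ V
          · exact Or.inr ⟨h1.2, fun h3 => hnVW ⟨h2, h3⟩⟩
          · exact Or.inl (Or.inr ⟨h1.1, h2⟩)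
        · exact Or.inl (Or.inl ⟨hn, h1⟩) } with hf
  have hmem : ∀ V : Set ℕ, V ∈ f ↔ ∃ x, (A x \ V).Finite := fun V => Iff.rfl
  have hultra : ∀ V : Set ℕ, Vᶜ ∉ f ↔ V ∈ f := by
    intro V
    constructor
    · intro h
      obtain ⟨x, hx | hx⟩ := hreap V
      · exact ⟨x, hx⟩
      · exfalso
        apply h
        refine ⟨x, ?_⟩
        rwa [Set.sdiff_compl]
    · rintro ⟨x, hx⟩ ⟨y, hy⟩
      have h1 := hcap {x, y} (by simp)
      refine h1 ((hx.union hy).subset ?_)
      intro n hn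
      by_cases h2 : n ∈ V
      · exact Or.inr ⟨hn (by simp), fun h3 => h3 h2⟩
      · exact Or.inl ⟨hn (by simp), h2⟩
  set p : Ultrafilter ℕ := Ultrafilter.ofComplNotMemIff f hultra with hp
  have hpmem : ∀ V : Set ℕ, V ∈ p ↔ ∃ x, (A x \ V).Finite := fun V => Iff.rfl
  set B : Set (Set ℕ) := Set.range fun q : X × Finset ℕ => A q.1 \ (q.2 : Set ℕ) with hB
  have hbase : IsUltrafilterBase B := by
    refine ⟨p, ?_, ?_, ?_⟩
    · intro n hn
      obtain ⟨x, hx⟩ := (hpmem _).1 hn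
      have h1 := hcap {x} (by simp)
      refine h1 ((hx.union (Set.finite_singleton n)).subset ?_)
      intro m hm
      by_cases h2 : m = n
      · exact Or.inr h2
      · exact Or.inl ⟨hm (by simp), h2⟩
    · rintro _ ⟨⟨x, F⟩, rfl⟩
      refine (hpmem _).2 ⟨x, F.finite_toSet.subset ?_⟩
      rintro n ⟨hn, hn2⟩
      by_contra hcon
      exact hn2 ⟨hn, hcon⟩
    · intro V hV
      obtain ⟨x, hx⟩ := (hpmem V).1 hV
      refine ⟨_, ⟨⟨x, hx.toFinset⟩, rfl⟩, ?_⟩
      rintro n ⟨hn, hn2⟩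
      by_contra hcon
      exact hn2 (by simpa using ⟨hn, hcon⟩)
  calc ultrafilterNumber ≤ #B := csInf_le' ⟨B, hbase, rfl⟩
    _ ≤ #(X × Finset ℕ) := Cardinal.mk_range_le
    _ = #X := by
      have h1 : ℵ₀ ≤ #X := by
        rw [Cardinal.aleph0_le_mk_iff]
        exact hXinf.to_subtype
      rw [Cardinal.mk_prod, Cardinal.lift_id, Cardinal.lift_id]
      have h2 : #(Finset ℕ) = ℵ₀ := by simp
      rw [h2]
      exact Cardinal.mul_aleph0_eq h1

/-! ### A large set -/

/-- A base of a nonprincipal ultrafilter, as a set of reals. -/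
lemma exists_not_good : ∃ X : Set ℝ, X ∉ Good ∧ #X ≤ ultrafilterNumber := by
  have hne : {c | ∃ B : Set (Set ℕ), IsUltrafilterBase B ∧ #B = c}.Nonempty := by
    refine ⟨_, {b | b ∈ (hyperfilter ℕ : Ultrafilter ℕ)}, ⟨hyperfilter ℕ, ?_, ?_, ?_⟩, rfl⟩
    · intro n hn
      exact Filter.notMem_hyperfilter_of_finite (Set.finite_singleton n) hn
    · intro b hb
      exact hb
    · intro V hV
      exact ⟨V, hV, subset_rfl⟩
  obtain ⟨B, ⟨p, hp1, hp2, hp3⟩, hBc⟩ := csInf_mem hne
  classical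
  set chi : Set ℕ → (ℕ → Bool) := fun b n => decide (n ∈ b) with hchi
  set f : Set ℕ → ℝ := fun b => (cantorSetHomeomorphNatToBool.symm (chi b) : ℝ) with hf
  set X : Set ℝ := f '' B with hX
  have hXc : ∀ x : X, (x : ℝ) ∈ cantorSet := by
    rintro ⟨_, b, _, rfl⟩
    exact (cantorSetHomeomorphNatToBool.symm (chi b)).2
  set g : X → (ℕ → Bool) := fun x => cantorSetHomeomorphNatToBool ⟨x, hXc x⟩ with hg
  have hgc : Continuous g :=
    cantorSetHomeomorphNatToBool.continuous.comp (Continuous.subtype_mk continuous_subtype_val _)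
  have hgf : ∀ b (hb : b ∈ B), g ⟨f b, ⟨b, hb, rfl⟩⟩ = chi b := by
    intro b hb
    have h1 : (⟨f b, hXc ⟨f b, ⟨b, hb, rfl⟩⟩⟩ : cantorSet) =
        cantorSetHomeomorphNatToBool.symm (chi b) := Subtype.ext rfl
    show cantorSetHomeomorphNatToBool ⟨f b, _⟩ = chi b
    rw [h1]
    exact cantorSetHomeomorphNatToBool.apply_symm_apply _
  set O : ℕ → Set X := fun n => {x | g x n = true} with hO
  have hOopen : ∀ n, IsOpen (O n) := by
    intro n
    have h1 : Continuous fun x : X => g x n := (continuous_apply n).comp hgc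
    exact (isOpen_discrete {true}).preimage h1
  have hpoint : ∀ x : X, ∃ b ∈ B, ∀ n, x ∈ O n ↔ n ∈ b := by
    rintro ⟨_, b, hb, rfl⟩
    refine ⟨b, hb, fun n => ?_⟩
    show g ⟨f b, _⟩ n = true ↔ n ∈ b
    rw [hgf b hb]
    simp [hchi]
  refine ⟨X, ?_, ?_⟩
  · intro hsplit
    have hsplit' : SplitOmegaLambda X := hsplit
    obtain ⟨V, W, hVW, hdisj, ⟨V', hV'V, hV'⟩, ⟨W', hW'W, hW'⟩⟩ := hsplit' (Set.range O) (by
      have hfin : ∀ F : Set X, F.Finite → ∃ u ∈ Set.range O, F ⊆ u := by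
        intro F hF
        have h1 : ∀ x ∈ F, {n | x ∈ O n} ∈ p := by
          intro x _
          obtain ⟨b, hb, hxb⟩ := hpoint x
          have h2 : {n | x ∈ O n} = b := by
            ext n
            exact hxb n
          rw [h2]
          exact hp2 b hb
        have h2 : (⋂ x ∈ F, {n | x ∈ O n}) ∈ (p : Filter ℕ) := (Filter.biInter_mem hF).2 h1
        obtain ⟨n, hn⟩ := p.neBot.nonempty_of_mem h2
        refine ⟨O n, ⟨n, rfl⟩, fun x hx => ?_⟩
        exact Set.mem_iInter₂.1 hn x hx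
      refine ⟨?_, ?_, ?_, hfin⟩
      · rintro _ ⟨n, rfl⟩
        exact hOopen n
      · rintro ⟨n, hn⟩
        have h1 : ({n} : Set ℕ)ᶜ ∈ p := Ultrafilter.compl_mem_iff_notMem.2 (hp1 n)
        obtain ⟨b, hb, hbn⟩ := hp3 _ h1
        have h2 : (⟨f b, ⟨b, hb, rfl⟩⟩ : X) ∈ O n := by
          rw [hn]
          trivial
        have h3 : g ⟨f b, ⟨b, hb, rfl⟩⟩ n = true := h2
        rw [hgf b hb] at h3
        have h4 : n ∈ b := by simpa [hchi] using h3
        exact hbn h4 rfl
      · rw [Set.eq_univ_iff_forall]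
        intro x
        obtain ⟨u, hu, hxu⟩ := hfin {x} (Set.finite_singleton x)
        exact ⟨u, hu, hxu rfl⟩)
    by_cases hcase : {n | O n ∈ V} ∈ p
    · obtain ⟨b, hb, hbV⟩ := hp3 _ hcase
      obtain ⟨w, hwW', hw⟩ := (hW'.2.2.2 ⟨f b, ⟨b, hb, rfl⟩⟩).nonempty
      have hwU : w ∈ Set.range O := by
        rw [← hVW]
        exact Or.inr (hW'W hwW')
      obtain ⟨n, rfl⟩ := hwU
      have h3 : g ⟨f b, ⟨b, hb, rfl⟩⟩ n = true := hw
      rw [hgf b hb] at h3
      have h4 : n ∈ b := by simpa [hchi] using h3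
      exact Set.disjoint_left.1 hdisj (hbV h4) (hW'W hwW')
    · obtain ⟨b, hb, hbV⟩ := hp3 _ (Ultrafilter.compl_mem_iff_notMem.2 hcase)
      obtain ⟨w, hwV', hw⟩ := (hV'.2.2.2 ⟨f b, ⟨b, hb, rfl⟩⟩).nonempty
      have hwU : w ∈ Set.range O := by
        rw [← hVW]
        exact Or.inl (hV'V hwV')
      obtain ⟨n, rfl⟩ := hwU
      have h3 : g ⟨f b, ⟨b, hb, rfl⟩⟩ n = true := hw
      rw [hgf b hb] at h3
      have h4 : n ∈ b := by simpa [hchi] using h3
      exact hbV h4 (hV'V hwV')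
  · calc #X ≤ #B := Cardinal.mk_image_le
      _ = ultrafilterNumber := hBc

/-- The union of `cf(𝔲)` many sets with `Split(Ω,Λ)` need not satisfy `Split(Ω,Λ)`. -/
lemma exists_family : ∃ F : Set (Set ℝ), F ⊆ Good ∧ ⋃₀ F ∉ Good ∧
    #F ≤ ultrafilterNumber.ord.cof := by
  obtain ⟨X, hX, hXle⟩ := exists_not_good
  obtain ⟨hXinf, hXge⟩ := le_of_not_good hX
  have hXcard : #X = ultrafilterNumber := le_antisymm hXle hXge
  have haleph : ℵ₀ ≤ ultrafilterNumber := by
    rw [← hXcard, Cardinal.aleph0_le_mk_iff]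
    exact hXinf.to_subtype
  have hmk : #X = #(ultrafilterNumber.ord.ToType) := by
    rw [hXcard, Cardinal.mk_ord_toType]
  obtain ⟨e⟩ := Cardinal.eq.1 hmk
  obtain ⟨C, hC, hCcard⟩ := Order.exists_cof_eq ultrafilterNumber.ord.ToType
  set piece : ultrafilterNumber.ord.ToType → Set ℝ := fun c =>
    Subtype.val '' {x : X | e x < c} with hpiece
  refine ⟨piece '' C, ?_, ?_, ?_⟩
  · rintro _ ⟨c, _, rfl⟩
    by_contra hcon
    have h1 := (le_of_not_good hcon).2
    have h2 : #(piece c) < ultrafilterNumber := by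
      calc #(piece c) ≤ #{x : X | e x < c} := Cardinal.mk_image_le
        _ ≤ #(Set.Iio c) := by
          refine Cardinal.mk_le_of_injective (f := fun x => ⟨e x.1, x.2⟩) ?_
          intro x y hxy
          have h3 : e x.1 = e y.1 := congrArg Subtype.val hxy
          exact Subtype.ext (e.injective h3)
        _ < ultrafilterNumber := Cardinal.mk_Iio_toType_ord_lt c
    exact absurd (lt_of_le_of_lt h1 h2) (lt_irrefl _)
  · have h1 : ⋃₀ (piece '' C) = X := by
      ext x
      constructor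
      · rintro ⟨_, ⟨c, _, rfl⟩, ⟨y, _, rfl⟩⟩
        exact y.2
      · intro hx
        have hlim : Order.IsSuccLimit ultrafilterNumber.ord := Cardinal.isSuccLimit_ord haleph
        have : NoMaxOrder ultrafilterNumber.ord.ToType := by
          exact Cardinal.noMaxOrder haleph
        obtain ⟨d, hd⟩ := exists_gt (e ⟨x, hx⟩)
        obtain ⟨c, hc, hdc⟩ := hC d
        exact ⟨piece c, ⟨c, hc, rfl⟩, ⟨⟨x, hx⟩, lt_of_lt_of_le hd hdc, rfl⟩⟩
    rw [h1]
    exact hX
  · calc #(piece '' C) ≤ #C := Cardinal.mk_image_le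
      _ = Order.cof ultrafilterNumber.ord.ToType := hCcard
      _ = ultrafilterNumber.ord.cof := Ordinal.cof_toType _

/-- The least cardinality of a set of reals without `Split(Ω,Λ)` is `𝔲` (not part of the
result). -/
lemma isLeast_ultrafilterNumber :
    IsLeast {c | ∃ X : Set ℝ, X ∉ Good ∧ #X = c} ultrafilterNumber := by
  refine ⟨?_, ?_⟩
  · obtain ⟨X, hX, hXle⟩ := exists_not_good
    exact ⟨X, hX, le_antisymm hXle (le_of_not_good hX).2⟩
  · rintro c ⟨X, hX, rfl⟩
    exact (le_of_not_good hX).2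

/-- **`add(Split(Ω,Λ)) ≤ cf(𝔲) ≤ 𝔲`.**  There is a family of at most `cf(𝔲)` sets of reals
satisfying `Split(Ω,Λ)` whose union does not satisfy it; hence the additivity number is at most
`cf(𝔲)`. -/
theorem result :
    (∃ F : Set (Set ℝ), F ⊆ Good ∧ ⋃₀ F ∉ Good ∧ #F ≤ ultrafilterNumber.ord.cof) ∧
    addNumber ≤ ultrafilterNumber.ord.cof ∧ ultrafilterNumber.ord.cof ≤ ultrafilterNumber := by
  refine ⟨exists_family, ?_, Ordinal.cof_ord_le _⟩
  obtain ⟨F, hF1, hF2, hF3⟩ := exists_family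
  have h1 : addNumber ≤ #F := csInf_le' ⟨F, hF1, hF2, rfl⟩
  exact h1.trans hF3

end Pool.Agent.Results.MP_312f56_gt.AddLeCofU
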